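import Pool.Agent.R815.GC.Final

/-!
# Directional divergence of the Gaussian consensus process at criticality
-/

namespace Pool.Agent.Results.MP_21b2a2_pr.CriticalDivergence

open MeasureTheory ProbabilityTheory Filter Topology Pool.Agent.R815.GC
open scoped RealInnerProductSpace

/-- If the top Lyapunov exponent `λ₁` is zero then, for every nonzero direction `u`, almost surely
`|u · X_i(t)| → ∞` for all `i` and `|u · mean(t)| → ∞`. -/
theorem result (N d : ℕ) (hN : 2 ≤ N) (α β : ℝ) (hα : 0 < α) (_hβ0 : 0 ≤ β) (hβ1 : β < 1)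
    (hcrit : IsTopLyapunov (N - 1) (√(α * (1 - β) ^ 2 / N)) β 0)
    (Ω : Type) [MeasurableSpace Ω] (μ : Measure Ω) [IsProbabilityMeasure μ]
    (X : ℕ → Ω → Fin N → EuclideanSpace ℝ (Fin d)) (hX : IsConsensus α β μ X)
    (hpd : ∀ᵐ ω ∂μ, (cov (X 0 ω)).PosDef) (u : EuclideanSpace ℝ (Fin d)) (hu : u ≠ 0) :
    ∀ᵐ ω ∂μ, (∀ i : Fin N, Tendsto (fun t : ℕ => |⟪u, X t ω i⟫|) atTop atTop) ∧
      Tendsto (fun t : ℕ => |⟪u, mean (X t ω)⟫|) atTop atTop := by
  obtain ⟨n, rfl⟩ : ∃ n, N = n + 1 := ⟨N - 1, by omega⟩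
  have hn : 0 < n := by omega
  obtain ⟨B, hB⟩ := exists_basis n
  set c := √(α * (1 - β) ^ 2 / ((n : ℝ) + 1)) with hc
  have hc0 : 0 < c := by
    rw [hc]
    apply Real.sqrt_pos.mpr
    have : 0 < 1 - β := by linarith
    positivity
  have hcrit' : IsTopLyapunov n c β 0 := by
    rw [hc]
    have := hcrit
    rw [cast_succ'] at this
    exact this
  have hdr := consensus_driven B hn hB hα hβ1 hu hX hpd hc rfl
  set e0 : FF n := EuclideanSpace.single ⟨0, hn⟩ 1 with he'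
  have he : ‖e0‖ = 1 := by rw [he']; simp
  have hmean := hcrit'.mean_eq hn hc0 he
  have hκ : 0 < c / √((n : ℝ) + 1) := div_pos hc0 (sqrt_pos' n)
  have h1 : ∀ᵐ ω ∂μ, ∀ i : Fin (n + 1), Tendsto (fun t : ℕ => |⟪u, X t ω i⟫|) atTop atTop := by
    rw [ae_all_iff]
    intro i
    have hℓ : Measurable fun v : FF n => ∑ j : Fin n, v j * (B j.succ) i := by fun_prop
    have h2 := hdr.diverge hκ hc0 he hmean hℓ
    filter_upwards [h2] with ω hω
    refine hω.congr fun t => ?_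
    rw [row_eq B hB u (X t ω) i]
  have h3 : ∀ᵐ ω ∂μ, Tendsto (fun t : ℕ => |⟪u, mean (X t ω)⟫|) atTop atTop := by
    have h2 := hdr.diverge hκ hc0 he hmean (ℓ := fun _ => 0) measurable_const
    filter_upwards [h2] with ω hω
    refine hω.congr fun t => ?_
    rw [add_zero]
  filter_upwards [h1, h3] with ω a1 a2
  exact ⟨a1, a2⟩

end Pool.Agent.Results.MP_21b2a2_pr.CriticalDivergence
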